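import Pool.Agent.helper73.BRZ.Spec

/-!
# brz, row LM: the order modulo `m`
-/

set_option autoImplicit false

namespace Pool.Agent.BRZ

open Matrix Module Pool.Agent.PR Pool.Agent.SHL

variable {d : ℕ} {D : Type} [DivisionRing D] [Algebra ℚ D]

/-- integral combinations of the basis are in the order -/
theorem LM_mem (S : SO d D) (n : Fin (d * d) → ℤ) : ∑ i, n i • S.b i ∈ S.ord := by
  refine AddSubgroup.sum_mem _ fun i _ => ?_
  exact AddSubgroup.zsmul_mem _ (AddSubgroup.subset_closure (Set.mem_range_self i)) _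

theorem LM_exists (S : SO d D) (x : D) (hx : x ∈ S.ord) :
    ∃ n : Fin (d * d) → ℤ, x = ∑ i, n i • S.b i := by
  unfold SO.ord at hx
  induction hx using AddSubgroup.closure_induction with
  | mem y hy =>
    obtain ⟨i, rfl⟩ := hy
    refine ⟨Pi.single i 1, ?_⟩
    rw [Finset.sum_eq_single i]
    · simp
    · intro j _ hj
      rw [Pi.single_eq_of_ne hj, zero_smul]
    · intro h
      exact absurd (Finset.mem_univ i) h
  | zero => exact ⟨0, by simp⟩
  | add y z _ _ hy hz =>
    obtain ⟨n, rfl⟩ := hy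
    obtain ⟨k, rfl⟩ := hz
    refine ⟨n + k, ?_⟩
    rw [← Finset.sum_add_distrib]
    exact Finset.sum_congr rfl fun i _ => by rw [Pi.add_apply, add_smul]
  | neg y _ hy =>
    obtain ⟨n, rfl⟩ := hy
    refine ⟨-n, ?_⟩
    rw [← Finset.sum_neg_distrib]
    exact Finset.sum_congr rfl fun i _ => by rw [Pi.neg_apply, neg_smul]

theorem LM_uniq (S : SO d D) (n k : Fin (d * d) → ℤ)
    (h : ∑ i, n i • S.b i = ∑ i, k i • S.b i) : n = k := by
  have h1 : ∀ (n : Fin (d * d) → ℤ) (i : Fin (d * d)), S.b.repr (∑ i, n i • S.b i) i = (n i : ℚ) := by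
    intro n i
    have h2 : ∑ i, n i • S.b i = ∑ i, (n i : ℚ) • S.b i :=
      Finset.sum_congr rfl fun i _ => by rw [Int.cast_smul_eq_zsmul]
    rw [h2, Basis.repr_sum_self]
  funext i
  have h3 := h1 n i
  rw [h, h1 k i] at h3
  exact_mod_cast h3.symm

/-- the property in question -/
def LM_P (S : SO d D) (m : ℕ) : Prop :=
  ∃ π : S.ord →+ Matrix (Fin d) (Fin d) (ZMod m), Function.Surjective π ∧
    (∀ x y z : S.ord, (z : D) = x * y → π z = π x * π y) ∧
    ∀ x : S.ord, π x = 0 ↔ ∃ y : S.ord, x = m • y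

theorem LM_nsmul_zero (d m : ℕ) (M : Matrix (Fin d) (Fin d) (ZMod m)) : m • M = 0 := by
  ext i j
  simp

theorem LM_one (S : SO d D) : LM_P S 1 := by
  refine ⟨0, ?_, ?_, ?_⟩
  · intro M
    exact ⟨0, Subsingleton.elim _ _⟩
  · intro x y z _
    exact Subsingleton.elim _ _
  · intro x
    constructor
    · intro _
      exact ⟨x, (one_smul _ x).symm⟩
    · intro _
      rfl

theorem LM_mul (S : SO d D) (a b : ℕ) (hab : Nat.Coprime a b) (ha : LM_P S a) (hb : LM_P S b) :
    LM_P S (a * b) := by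
  obtain ⟨π₁, hs1, hm1, hk1⟩ := ha
  obtain ⟨π₂, hs2, hm2, hk2⟩ := hb
  let e := ZMod.chineseRemainder hab
  -- Bezout
  obtain ⟨u, v, huv⟩ : ∃ u v : ℤ, u * a + v * b = 1 := by
    have h := Nat.isCoprime_iff_coprime.2 hab
    obtain ⟨u, v, h⟩ := h
    exact ⟨u, v, h⟩
  let F : S.ord → Matrix (Fin d) (Fin d) (ZMod (a * b)) :=
    fun x => Matrix.of fun i j => e.symm (π₁ x i j, π₂ x i j)
  have hF : ∀ x i j, e (F x i j) = (π₁ x i j, π₂ x i j) := fun x i j => e.apply_symm_apply _
  have hinj : ∀ M M' : Matrix (Fin d) (Fin d) (ZMod (a * b)),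
      (∀ i j, e (M i j) = e (M' i j)) → M = M' := by
    intro M M' h
    ext i j
    exact e.injective (h i j)
  let π : S.ord →+ Matrix (Fin d) (Fin d) (ZMod (a * b)) := AddMonoidHom.mk' F (by
    intro x y
    apply hinj
    intro i j
    rw [Matrix.add_apply, map_add, hF, hF, hF, map_add, map_add]
    rfl)
  have hπ : ∀ x, π x = F x := fun x => rfl
  have hz1 : ∀ (k : ℤ) (M : Matrix (Fin d) (Fin d) (ZMod a)), (k * a) • M = 0 := by
    intro k M
    rw [mul_smul, natCast_zsmul, LM_nsmul_zero, smul_zero]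
  have hz2 : ∀ (k : ℤ) (M : Matrix (Fin d) (Fin d) (ZMod b)), (k * b) • M = 0 := by
    intro k M
    rw [mul_smul, natCast_zsmul, LM_nsmul_zero, smul_zero]
  have hzero : ∀ x, π x = 0 ↔ π₁ x = 0 ∧ π₂ x = 0 := by
    intro x
    constructor
    · intro h
      have h1 : ∀ i j, e (F x i j) = 0 := by
        intro i j
        rw [← hπ, h, Matrix.zero_apply, map_zero]
      constructor
      · ext i j
        have := congrArg Prod.fst (h1 i j)
        rw [hF] at this
        exact this
      · ext i j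
        have := congrArg Prod.snd (h1 i j)
        rw [hF] at this
        exact this
    · rintro ⟨h1, h2⟩
      rw [hπ]
      apply hinj
      intro i j
      rw [hF, h1, h2, Matrix.zero_apply, Matrix.zero_apply, Matrix.zero_apply, map_zero]
      rfl
  refine ⟨π, ?_, ?_, ?_⟩
  · intro M
    obtain ⟨x, hx⟩ := hs1 (Matrix.of fun i j => (e (M i j)).1)
    obtain ⟨y, hy⟩ := hs2 (Matrix.of fun i j => (e (M i j)).2)
    refine ⟨(v * b) • x + (u * a) • y, ?_⟩
    have h1 : π₁ ((v * b) • x + (u * a) • y) = Matrix.of fun i j => (e (M i j)).1 := by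
      rw [map_add, map_zsmul, map_zsmul, hz1, add_zero, ← hx]
      have h2 : v * b = 1 - u * a := by linarith
      rw [h2, sub_smul, one_smul, hz1, sub_zero]
    have h2 : π₂ ((v * b) • x + (u * a) • y) = Matrix.of fun i j => (e (M i j)).2 := by
      rw [map_add, map_zsmul, map_zsmul, hz2, zero_add, ← hy]
      have h2 : u * a = 1 - v * b := by linarith
      rw [h2, sub_smul, one_smul, hz2, sub_zero]
    rw [hπ]
    apply hinj
    intro i j
    rw [hF, h1, h2]
    rfl
  · intro x y z hz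
    rw [hπ, hπ, hπ]
    apply hinj
    intro i j
    rw [hF, hm1 x y z hz, hm2 x y z hz, Matrix.mul_apply, Matrix.mul_apply, Matrix.mul_apply,
      map_sum]
    have h1 : ∀ l, e (F x i l * F y l j) = (π₁ x i l * π₁ y l j, π₂ x i l * π₂ y l j) := by
      intro l
      rw [map_mul, hF, hF]
      rfl
    rw [Finset.sum_congr rfl fun l _ => h1 l]
    ext
    · rw [Prod.fst_sum]
    · rw [Prod.snd_sum]
  · intro x
    rw [hzero, hk1, hk2]
    constructor
    · rintro ⟨⟨y, hy⟩, ⟨z, hz⟩⟩
      refine ⟨u • z + v • y, ?_⟩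
      have h1 : x = (u * a) • x + (v * b) • x := by
        rw [← add_smul, huv, one_smul]
      have h2 : (u * a) • x = ((a * b : ℕ) : ℤ) • (u • z) := by
        conv_lhs => rw [hz]
        rw [← natCast_zsmul z b, ← mul_smul, ← mul_smul]
        congr 1
        push_cast
        ring
      have h3 : (v * b) • x = ((a * b : ℕ) : ℤ) • (v • y) := by
        conv_lhs => rw [hy]
        rw [← natCast_zsmul y a, ← mul_smul, ← mul_smul]
        congr 1
        push_cast
        ring
      rw [h2, h3, ← smul_add, natCast_zsmul] at h1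
      exact h1
    · rintro ⟨y, hy⟩
      constructor
      · exact ⟨b • y, by rw [hy, mul_smul]⟩
      · exact ⟨a • y, by rw [hy, mul_comm, mul_smul]⟩

theorem LM_pow (S : SO d D) (q : ℕ) [Fact q.Prime] (θ : D →+* Matrix (Fin d) (Fin d) ℚ_[q])
    (X : Fin (d * d) → Matrix (Fin d) (Fin d) ℤ_[q])
    (hX : ∀ i, θ (S.b i) = (X i).map (PadicInt.Coe.ringHom (p := q)))
    (hu : ∀ M : Matrix (Fin d) (Fin d) ℤ_[q], ∃! c : Fin (d * d) → ℤ_[q], M = ∑ i, c i • X i)
    (j : ℕ) : LM_P S (q ^ j) := by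
  have hq0 : q ≠ 0 := (Fact.out : q.Prime).ne_zero
  haveI : NeZero (q ^ j) := ⟨pow_ne_zero _ hq0⟩
  choose co hco using fun x : S.ord => LM_exists S x.1 x.2
  have hcou : ∀ (x : S.ord) (n : Fin (d * d) → ℤ), (x : D) = ∑ i, n i • S.b i → co x = n := by
    intro x n h
    exact LM_uniq S _ _ ((hco x).symm.trans h)
  let ι : Matrix (Fin d) (Fin d) ℤ_[q] →+* Matrix (Fin d) (Fin d) ℚ_[q] :=
    (PadicInt.Coe.ringHom (p := q)).mapMatrix
  have hι : Function.Injective ι := by
    intro M M' h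
    apply Matrix.ext
    intro a b
    have h1 := congrFun (congrFun h a) b
    exact Subtype.ext h1
  let A : S.ord → Matrix (Fin d) (Fin d) ℤ_[q] := fun x => ∑ i, (co x i) • X i
  have hA : ∀ x : S.ord, θ x = ι (A x) := by
    intro x
    show θ x = ι (∑ i, (co x i) • X i)
    rw [hco x, map_sum, map_sum]
    refine Finset.sum_congr rfl fun i _ => ?_
    rw [map_zsmul, map_zsmul, hX]
    rfl
  have hAadd : ∀ x y, A (x + y) = A x + A y := by
    intro x y
    apply hι
    rw [map_add, ← hA, ← hA, ← hA, ← map_add]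
    rfl
  have hAmul : ∀ x y z : S.ord, (z : D) = x * y → A z = A x * A y := by
    intro x y z hz
    apply hι
    rw [map_mul, ← hA, ← hA, ← hA, ← map_mul, hz]
  let τ : Matrix (Fin d) (Fin d) ℤ_[q] →+* Matrix (Fin d) (Fin d) (ZMod (q ^ j)) :=
    (PadicInt.toZModPow (p := q) j).mapMatrix
  have hτ : ∀ M a b, τ M a b = PadicInt.toZModPow (p := q) j (M a b) := fun M a b => rfl
  let π : S.ord →+ Matrix (Fin d) (Fin d) (ZMod (q ^ j)) := AddMonoidHom.mk' (fun x => τ (A x)) (by
    intro x y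
    show τ (A (x + y)) = τ (A x) + τ (A y)
    rw [hAadd, map_add])
  have hπ : ∀ x, π x = τ (A x) := fun x => rfl
  refine ⟨π, ?_, ?_, ?_⟩
  · intro M
    choose l hl using (ZMod.ringHom_surjective (PadicInt.toZModPow (p := q) j))
    obtain ⟨c, hc, -⟩ := hu (M.map l)
    have hM : M = τ (M.map l) := by
      ext a b
      rw [hτ, Matrix.map_apply, hl]
    obtain ⟨n, hn⟩ : ∃ n : Fin (d * d) → ℤ, ∀ i, ((n i : ℤ) : ZMod (q ^ j)) =
        PadicInt.toZModPow (p := q) j (c i) := by
      refine ⟨fun i => ((PadicInt.toZModPow (p := q) j (c i)).val : ℤ), fun i => ?_⟩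
      push_cast
      exact ZMod.natCast_zmod_val _
    refine ⟨⟨∑ i, n i • S.b i, LM_mem S n⟩, ?_⟩
    have hcx : co ⟨∑ i, n i • S.b i, LM_mem S n⟩ = n := hcou _ _ rfl
    rw [hπ]
    show τ (∑ i, (co ⟨∑ i, n i • S.b i, LM_mem S n⟩ i) • X i) = M
    rw [hcx]
    conv_rhs => rw [hM, hc]
    rw [map_sum, map_sum]
    refine Finset.sum_congr rfl fun i _ => ?_
    ext a b
    rw [hτ, hτ, Matrix.smul_apply, Matrix.smul_apply, smul_eq_mul, map_mul, map_zsmul, ← hn,
      zsmul_eq_mul]
  · intro x y z hz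
    rw [hπ, hπ, hπ, hAmul x y z hz, map_mul]
  · intro x
    constructor
    · intro h
      rw [hπ] at h
      have h1 : ∀ a b, ∃ w : ℤ_[q], A x a b = (q : ℤ_[q]) ^ j * w := by
        intro a b
        have h2 : PadicInt.toZModPow (p := q) j (A x a b) = 0 := by
          rw [← hτ, h, Matrix.zero_apply]
        have h3 : A x a b ∈ RingHom.ker (PadicInt.toZModPow (p := q) j) := h2
        rw [PadicInt.ker_toZModPow, Ideal.mem_span_singleton] at h3
        exact h3
      choose w hw using h1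
      obtain ⟨c, hc, -⟩ := hu (Matrix.of w)
      obtain ⟨c', -, hc'⟩ := hu (A x)
      have e1 : (fun i => ((co x i : ℤ) : ℤ_[q])) = c' := by
        apply hc'
        show ∑ i, (co x i) • X i = ∑ i, ((co x i : ℤ) : ℤ_[q]) • X i
        exact Finset.sum_congr rfl fun i _ => by rw [Int.cast_smul_eq_zsmul]
      have e2 : (fun i => (q : ℤ_[q]) ^ j * c i) = c' := by
        apply hc'
        show A x = ∑ i, ((q : ℤ_[q]) ^ j * c i) • X i
        have h4 : A x = ((q : ℤ_[q]) ^ j) • Matrix.of w := by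
          ext a b
          rw [hw, Matrix.smul_apply, smul_eq_mul]
          rfl
        rw [h4, hc, Finset.smul_sum]
        exact Finset.sum_congr rfl fun i _ => by rw [mul_smul]
      have h5 : ∀ i, ∃ k : ℤ, co x i = (q : ℤ) ^ j * k := by
        intro i
        have h6 : ((co x i : ℤ) : ℤ_[q]) = (q : ℤ_[q]) ^ j * c i := by
          have := congrFun (e1.trans e2.symm) i
          exact this
        have h7 : ((q : ℤ_[q]) ^ j) ∣ ((co x i : ℤ) : ℤ_[q]) := ⟨c i, h6⟩
        exact (PadicInt.pow_p_dvd_int_iff j (co x i)).1 h7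
      choose k hk using h5
      refine ⟨⟨∑ i, k i • S.b i, LM_mem S k⟩, ?_⟩
      apply Subtype.ext
      show (x : D) = ((q ^ j) • (⟨∑ i, k i • S.b i, LM_mem S k⟩ : S.ord) : S.ord)
      rw [AddSubgroup.coe_nsmul]
      show (x : D) = (q ^ j) • ∑ i, k i • S.b i
      rw [hco x, Finset.smul_sum]
      refine Finset.sum_congr rfl fun i _ => ?_
      rw [hk i, mul_smul, ← natCast_zsmul]
      push_cast
      rfl
    · rintro ⟨y, hy⟩
      rw [hy, map_nsmul, LM_nsmul_zero]

theorem LM (hLQ : LQ_stmt) : LM_stmt := by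
  intro d D _ _ _ hd hcen S hsplit m hm
  have key : ∀ m : ℕ, 0 < m → LM_P S m := by
    intro m
    induction m using Nat.recOnPosPrimePosCoprime with
    | zero => intro h; exact absurd h (lt_irrefl _)
    | one => intro _; exact LM_one S
    | prime_pow q j hq hj =>
      intro _
      haveI : Fact q.Prime := ⟨hq⟩
      obtain ⟨θ, X, hX, hu⟩ := hLQ d D hd hcen S q (hsplit q)
      exact LM_pow S q θ X hX hu j
    | coprime a b ha hb hab iha ihb =>
      intro _
      exact LM_mul S a b hab (iha (by omega)) (ihb (by omega))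
  exact key m hm

end Pool.Agent.BRZ
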